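import Mathlib
import Pool.Agent.H370R2.Rect

set_option autoImplicit false

/-! Rouche's theorem on a rectangle. -/

namespace Pool.Agent.V11273.DX

open Set Complex Filter Topology MeasureTheory
open H370 (RI Bd mult)

noncomputable section

lemma RI_prim {a b c d : ℝ} (hab : a ≤ b) (hcd : c ≤ d) {u v : ℂ → ℂ}
    (hu : ∀ s ∈ Bd a b c d, HasDerivAt u (v s) s) (hv : ContinuousOn v (Bd a b c d)) :
    RI a b c d v = 0 := by
  have hh : ∀ e : ℝ, (e = c ∨ e = d) → ∫ x in a..b, v ⟨x, e⟩ = u ⟨b, e⟩ - u ⟨a, e⟩ := by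
    intro e he
    refine intervalIntegral.integral_eq_sub_of_hasDerivAt (f := fun x : ℝ => u ⟨x, e⟩) ?_
      (H370.ii_h hab hv he)
    intro x hx
    rw [uIcc_of_le hab] at hx
    have h1 : HasDerivAt (fun x : ℝ => (⟨x, e⟩ : ℂ)) 1 x := by
      have e1 : (fun x : ℝ => (⟨x, e⟩ : ℂ)) = fun x : ℝ => (x : ℂ) + e * I := by
        funext x; exact H370.mk_eq x e
      rw [e1]
      exact (Complex.ofRealCLM.hasDerivAt (x := x)).add_const _
    have h2 := (hu ⟨x, e⟩ (Or.inl ⟨hx, he⟩)).comp x h1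
    rw [mul_one] at h2
    exact h2
  have hv' : ∀ e : ℝ, (e = a ∨ e = b) → I * ∫ y in c..d, v ⟨e, y⟩ = u ⟨e, d⟩ - u ⟨e, c⟩ := by
    intro e he
    rw [← intervalIntegral.integral_const_mul]
    refine intervalIntegral.integral_eq_sub_of_hasDerivAt (f := fun y : ℝ => u ⟨e, y⟩) ?_
      ((H370.ii_v hcd hv he).const_mul I)
    intro y hy
    rw [uIcc_of_le hcd] at hy
    have h1 : HasDerivAt (fun y : ℝ => (⟨e, y⟩ : ℂ)) I y := by
      have e1 : (fun y : ℝ => (⟨e, y⟩ : ℂ)) = fun y : ℝ => (e : ℂ) + y * I := by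
        funext y; exact H370.mk_eq e y
      rw [e1]
      have := ((Complex.ofRealCLM.hasDerivAt (x := y)).mul_const I).const_add (e : ℂ)
      simpa using this
    have h2 := (hu ⟨e, y⟩ (Or.inr ⟨hy, he⟩)).comp y h1
    have h3 : I * v ⟨e, y⟩ = v ⟨e, y⟩ * I := mul_comm _ _
    rw [h3]
    exact h2
  unfold RI
  rw [hh c (Or.inl rfl), hh d (Or.inr rfl), hv' b (Or.inr rfl), hv' a (Or.inl rfl)]
  ring

/-- number of zeros in an open rectangle, with multiplicity -/
def cnt (F : ℂ → ℂ) (a b c d : ℝ) : ℕ :=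
  ∑ᶠ s ∈ {s | s ∈ Set.Ioo a b ×ℂ Set.Ioo c d ∧ F s = 0}, mult F s

lemma rouche_aux {F : ℂ → ℂ} {a b c d : ℝ} (hab : a < b) (hcd : c < d)
    (hF : AnalyticOnNhd ℂ F (Set.Icc a b ×ℂ Set.Icc c d))
    (h0 : ∀ s ∈ Bd a b c d, F s ≠ 0) :
    {s | s ∈ Set.Ioo a b ×ℂ Set.Ioo c d ∧ F s = 0}.Finite ∧
    RI a b c d (fun s => deriv F s / F s) = 2 * Real.pi * I * (cnt F a b c d : ℂ) := by
  have h1 := H370.rect_residue F (fun _ => 1) a b c d hab hcd hF (by fun_prop) (by
    intro s hs hs0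
    by_contra hne
    refine h0 s ?_ hs0
    obtain ⟨h2, h3⟩ := hs
    rw [mem_preimage] at h2 h3
    by_cases ha : s.re = a
    · exact Or.inr ⟨h3, Or.inl ha⟩
    by_cases hb : s.re = b
    · exact Or.inr ⟨h3, Or.inr hb⟩
    by_cases hc : s.im = c
    · exact Or.inl ⟨h2, Or.inl hc⟩
    by_cases hd : s.im = d
    · exact Or.inl ⟨h2, Or.inr hd⟩
    exact absurd (show s ∈ Set.Ioo a b ×ℂ Set.Ioo c d from
      ⟨⟨lt_of_le_of_ne h2.1 (Ne.symm ha), lt_of_le_of_ne h2.2 hb⟩,
       ⟨lt_of_le_of_ne h3.1 (Ne.symm hc), lt_of_le_of_ne h3.2 hd⟩⟩) hne)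
  refine ⟨h1.1, ?_⟩
  have h2 := h1.2
  simp only [mul_one] at h2
  unfold RI
  rw [h2]
  unfold cnt
  have hfin := h1.1
  rw [finsum_mem_eq_finite_toFinset_sum _ hfin, finsum_mem_eq_finite_toFinset_sum _ hfin]
  push_cast
  rfl

theorem rouche {f g : ℂ → ℂ} {a b c d : ℝ} (hab : a < b) (hcd : c < d)
    (hf : AnalyticOnNhd ℂ f (Set.Icc a b ×ℂ Set.Icc c d))
    (hg : AnalyticOnNhd ℂ g (Set.Icc a b ×ℂ Set.Icc c d))
    (hlt : ∀ s ∈ Bd a b c d, ‖g s - f s‖ < ‖f s‖) : cnt g a b c d = cnt f a b c d := by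
  have hf0 : ∀ s ∈ Bd a b c d, f s ≠ 0 := fun s hs h => by
    have := hlt s hs
    rw [h, norm_zero] at this
    exact absurd this (not_lt.2 (norm_nonneg _))
  have hg0 : ∀ s ∈ Bd a b c d, g s ≠ 0 := fun s hs h => by
    have := hlt s hs
    rw [h, zero_sub, norm_neg] at this
    exact lt_irrefl _ this
  have hK := H370.Bd_sub hab.le hcd.le
  obtain ⟨_, h1⟩ := rouche_aux hab hcd hf hf0
  obtain ⟨_, h2⟩ := rouche_aux hab hcd hg hg0
  have hcf : ContinuousOn (fun s => deriv f s / f s) (Bd a b c d) := fun s hs =>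
    ((hf s (hK hs)).deriv.continuousAt.div (hf s (hK hs)).continuousAt (hf0 s hs)).continuousWithinAt
  have hcg : ContinuousOn (fun s => deriv g s / g s) (Bd a b c d) := fun s hs =>
    ((hg s (hK hs)).deriv.continuousAt.div (hg s (hK hs)).continuousAt (hg0 s hs)).continuousWithinAt
  have hw : ∀ s ∈ Bd a b c d, g s / f s ∈ Complex.slitPlane := by
    intro s hs
    have h3 : ‖g s / f s - 1‖ < 1 := by
      have h4 : g s / f s - 1 = (g s - f s) / f s := by
        field_simp [hf0 s hs]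
      rw [h4, norm_div, div_lt_one (norm_pos_iff.mpr (hf0 s hs))]
      exact hlt s hs
    left
    have h5 := (Complex.abs_re_le_norm (g s / f s - 1)).trans_lt h3
    rw [Complex.sub_re, Complex.one_re, abs_lt] at h5
    linarith
  have hp : RI a b c d (fun s => deriv g s / g s - deriv f s / f s) = 0 := by
    refine RI_prim hab.le hcd.le (u := fun s => Complex.log (g s / f s)) ?_ (hcg.sub hcf)
    intro s hs
    have h3 := (hg s (hK hs)).differentiableAt.hasDerivAt
    have h4 := (hf s (hK hs)).differentiableAt.hasDerivAt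
    have h5 := (h3.div h4 (hf0 s hs)).clog (hw s hs)
    have e : (deriv g s * f s - g s * deriv f s) / f s ^ 2 / (g s / f s) = deriv g s / g s - deriv f s / f s := by
      have := hf0 s hs
      have := hg0 s hs
      field_simp
    rw [← e]
    exact h5
  have hs : RI a b c d (fun s => deriv g s / g s) =
      RI a b c d (fun s => deriv g s / g s - deriv f s / f s) + RI a b c d (fun s => deriv f s / f s) := by
    have h3 := H370.RI_add hab.le hcd.le (f := fun s => deriv g s / g s - deriv f s / f s)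
      (g := fun s => deriv f s / f s) (hcg.sub hcf) hcf
    rw [← h3]
    exact H370.RI_congr hab.le hcd.le fun s _ => by ring
  rw [hp, zero_add, h1, h2] at hs
  have hpi : (2 * Real.pi * I : ℂ) ≠ 0 := by
    refine mul_ne_zero (mul_ne_zero two_ne_zero ?_) Complex.I_ne_zero
    exact_mod_cast Real.pi_ne_zero
  exact_mod_cast mul_left_cancel₀ hpi hs

end

end Pool.Agent.V11273.DX
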