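import Mathlib
import Pool.Agent.Y22.LM6
import Pool.Agent.V11273.DX.Pair
import Pool.Agent.V11273.DX.Rouche

set_option autoImplicit false

/-! Zeros of `e^{i θ} XX (z + h) + e^{- i θ} XX (z - h)` off the imaginary axis. -/

namespace Pool.Agent.V11273.DX

open Set Complex Filter Topology
open Pool.Agent.H24R2.JP
open H370 (mult Bd)
open Pool.Agent.Y22.LM (XX_top XX_zero_iff XX_refl_norm XX_refl_zero XX_order)

noncomputable section

/-- the combination of two shifts -/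
def FF (h θ : ℝ) (z : ℂ) : ℂ := cexp (θ * I) * XX (z + h) + cexp (-(θ * I)) * XX (z - h)

lemma nexp (θ : ℝ) : ‖cexp (θ * I)‖ = 1 := Complex.norm_exp_ofReal_mul_I θ

lemma nexp' (θ : ℝ) : ‖cexp (-(θ * I))‖ = 1 := by
  have : (-(θ * I) : ℂ) = ((-θ : ℝ) : ℂ) * I := by push_cast; ring
  rw [this]; exact Complex.norm_exp_ofReal_mul_I _

lemma FF_diff (h θ : ℝ) : Differentiable ℂ (FF h θ) := by
  intro z
  unfold FF
  have h2 : DifferentiableAt ℂ (fun w : ℂ => XX (w - h)) z :=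
    (B1h.XX_diff.differentiableAt).comp z (by fun_prop)
  have h3 : DifferentiableAt ℂ (fun w : ℂ => XX (w + h)) z :=
    (B1h.XX_diff.differentiableAt).comp z (by fun_prop)
  exact (h3.const_mul _).add (h2.const_mul _)

lemma FF_neg (h θ : ℝ) (z : ℂ) : FF h θ (-z) = FF h (-θ) z := by
  unfold FF
  have e1 : XX (-z + h) = XX (z - h) := by rw [← Zer.XX_even]; congr 1; ring
  have e2 : XX (-z - h) = XX (z + h) := by rw [← Zer.XX_even]; congr 1; ring
  rw [e1, e2]
  push_cast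
  rw [neg_mul, neg_neg, add_comm]

lemma FF_ne {h θ : ℝ} (hh : 0 < h) {z : ℂ} (hz : z ∈ DD h) : FF h θ z ≠ 0 := by
  intro h0
  have h1 := lt_of_DD hh hz
  unfold FF at h0
  have h2 : cexp (θ * I) * XX (z + h) = -(cexp (-(θ * I)) * XX (z - h)) := eq_neg_of_add_eq_zero_left h0
  have h3 := congrArg norm h2
  rw [norm_neg, norm_mul, norm_mul, nexp, nexp', one_mul, one_mul] at h3
  linarith

lemma loc_pos {h θ : ℝ} (hh : 0 < h) {z : ℂ} (hz : 0 < z.re) (h0 : FF h θ z = 0) :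
    ∃ b : ℂ, XX b = 0 ∧ (z.im - b.im) ^ 2 + z.re ^ 2 + h ^ 2 ≤ b.re ^ 2 := by
  by_contra hcon
  push Not at hcon
  exact FF_ne hh ⟨hz, hcon⟩ h0

/-- location of the zeros off the line -/
theorem loc {h θ : ℝ} (hh : 0 < h) {z : ℂ} (hz : z.re ≠ 0) (h0 : FF h θ z = 0) :
    ∃ b : ℂ, XX b = 0 ∧ (z.im - b.im) ^ 2 + z.re ^ 2 + h ^ 2 ≤ b.re ^ 2 := by
  rcases lt_or_gt_of_ne hz with h1 | h1
  · have h2 : FF h (-θ) (-z) = 0 := by rw [FF_neg, neg_neg]; exact h0
    obtain ⟨b, hb1, hb2⟩ := loc_pos hh (by simpa using h1) h2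
    refine ⟨-b, by rw [Zer.XX_even]; exact hb1, ?_⟩
    simp only [neg_im, neg_re] at hb2 ⊢
    nlinarith
  · exact loc_pos hh h1 h0

/-- the threshold -/
theorem threshold {h : ℝ} (hh : 0 < h) :
    (∀ (θ : ℝ) (z : ℂ), FF h θ z = 0 → z.re = 0) ↔ ∀ b : ℂ, XX b = 0 → b.re ≤ h := by
  constructor
  · intro H b hb
    by_contra hlt
    push Not at hlt
    -- continuity along a horizontal ray
    have hc : Continuous fun x : ℝ => ‖XX (b - h + x - h)‖ - ‖XX (b - h + x + h)‖ := by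
      have h1 : Continuous fun x : ℝ => XX (b - h + x - h) := B1h.XX_diff.continuous.comp (by fun_prop)
      have h2 : Continuous fun x : ℝ => XX (b - h + x + h) := B1h.XX_diff.continuous.comp (by fun_prop)
      exact h1.norm.sub h2.norm
    have h0 : 0 ≤ ‖XX (b - h + (0 : ℝ) - h)‖ - ‖XX (b - h + (0 : ℝ) + h)‖ := by
      have e : (b - h + (0 : ℝ) + h : ℂ) = b := by push_cast; ring
      rw [e, hb, norm_zero, sub_zero]
      exact norm_nonneg _
    have h1 : ‖XX (b - h + (1 : ℝ) - h)‖ - ‖XX (b - h + (1 : ℝ) + h)‖ ≤ 0 := by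
      have hD : (b - h + (1 : ℝ) : ℂ) ∈ DD h := by
        refine ⟨?_, Fr_far ?_⟩
        · simp; linarith
        · simp; linarith
      linarith [lt_of_DD hh hD]
    obtain ⟨x, hx, hx0⟩ := intermediate_value_Icc' (a := (0 : ℝ)) (b := 1) (by norm_num)
      hc.continuousOn ⟨h1, h0⟩
    set z : ℂ := b - h + x with hz
    have hzre : 0 < z.re := by
      have := hx.1
      rw [hz]; simp; linarith
    have heq : ‖XX (z - h)‖ = ‖XX (z + h)‖ := by
      have hx1 : ‖XX (z - h)‖ - ‖XX (z + h)‖ = 0 := hx0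
      linarith
    by_cases hne : XX (z + h) = 0
    · have h2 : XX (z - h) = 0 := by rw [← norm_eq_zero, heq, hne, norm_zero]
      have := H 0 z (by unfold FF; rw [hne, h2, mul_zero, mul_zero, add_zero])
      linarith
    · set w : ℂ := -XX (z - h) / XX (z + h) with hw
      have hwn : ‖w‖ = 1 := by
        rw [hw, norm_div, norm_neg, heq, div_self (norm_pos_iff.mpr hne).ne']
      have hwe : cexp (w.arg * I) = w := by
        have := Complex.norm_mul_exp_arg_mul_I w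
        rw [hwn] at this
        simpa using this
      have hF : FF h (w.arg / 2) z = 0 := by
        unfold FF
        have e1 : cexp (((w.arg / 2 : ℝ) : ℂ) * I) * cexp (((w.arg / 2 : ℝ) : ℂ) * I) = w := by
          rw [← Complex.exp_add]
          rw [← hwe]
          congr 1
          rw [hwe]
          push_cast; ring
        have e2 : cexp (((w.arg / 2 : ℝ) : ℂ) * I) * cexp (-(((w.arg / 2 : ℝ) : ℂ) * I)) = 1 := by
          rw [← Complex.exp_add, add_neg_cancel, Complex.exp_zero]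
        have e3 : w * XX (z + h) = -XX (z - h) := by rw [hw]; field_simp
        have hne2 : cexp (((w.arg / 2 : ℝ) : ℂ) * I) ≠ 0 := Complex.exp_ne_zero _
        have e4 : cexp (((w.arg / 2 : ℝ) : ℂ) * I) * (cexp (((w.arg / 2 : ℝ) : ℂ) * I) * XX (z + h) +
            cexp (-(((w.arg / 2 : ℝ) : ℂ) * I)) * XX (z - h)) = 0 := by
          calc _ = (cexp (((w.arg / 2 : ℝ) : ℂ) * I) * cexp (((w.arg / 2 : ℝ) : ℂ) * I)) * XX (z + h) +
              (cexp (((w.arg / 2 : ℝ) : ℂ) * I) * cexp (-(((w.arg / 2 : ℝ) : ℂ) * I))) * XX (z - h) := by ring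
            _ = 0 := by rw [e1, e2, e3]; ring
        exact (mul_eq_zero.1 e4).resolve_left hne2
      have := H _ z hF
      linarith
  · intro H θ z h0
    by_contra hne
    obtain ⟨b, hb1, hb2⟩ := loc hh hne h0
    have h1 := H b hb1
    have h2 := H (-b) (by rw [Zer.XX_even]; exact hb1)
    rw [neg_re] at h2
    have h3 : 0 < z.re ^ 2 := by positivity
    nlinarith [sq_nonneg (z.im - b.im)]

/-! ## multiplicities -/

lemma mult_comp_neg (f : ℂ → ℂ) (z : ℂ) : mult (fun w => f (-w)) z = mult f (-z) := by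
  unfold H370.mult analyticOrderNatAt
  have h1 := analyticOrderAt_comp_of_deriv_ne_zero (f := f) (g := fun w : ℂ => -w) (z₀ := z) (by fun_prop) (by
    simp)
  rw [← h1]
  rfl

lemma mult_comp_add (f : ℂ → ℂ) (h z : ℂ) : mult (fun w => f (w + h)) z = mult f (z + h) := by
  unfold H370.mult analyticOrderNatAt
  have h1 := analyticOrderAt_comp_of_deriv_ne_zero (f := f) (g := fun w : ℂ => w + h) (z₀ := z) (by fun_prop) (by
    simp)
  rw [← h1]
  rfl

lemma mult_const {f : ℂ → ℂ} (hf : Differentiable ℂ f) {k : ℂ} (hk : k ≠ 0) (z : ℂ) :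
    mult (fun w => k * f w) z = mult f z := by
  unfold H370.mult analyticOrderNatAt
  have h1 : (fun w => k * f w) = (fun _ => k) * f := rfl
  rw [h1, analyticOrderAt_mul analyticAt_const (hf.analyticAt z),
    analyticAt_const.analyticOrderAt_eq_zero.mpr hk, zero_add]

/-- zeros to the right of the line, between the heights `T1` and `T2` -/
def RZ (h θ T1 T2 : ℝ) : Set ℂ := {z | FF h θ z = 0 ∧ 0 < z.re ∧ T1 < z.im ∧ z.im < T2}

/-- zeros of `XX` with real part greater than `h`, between the heights `T1` and `T2` -/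
def XZ (h T1 T2 : ℝ) : Set ℂ := {b | XX b = 0 ∧ h < b.re ∧ T1 < b.im ∧ b.im < T2}

/-- a good height -/
def GH (h T : ℝ) : Prop := ∀ b : ℂ, XX b = 0 → b.re ^ 2 < (T - b.im) ^ 2 + h ^ 2

lemma XZ_finite {h T1 T2 : ℝ} (h0 : 0 ≤ h) : (XZ h T1 T2).Finite := by
  refine (XX_finite (Set.Icc 0 1 ×ℂ Set.Icc T1 T2) (isCompact_Icc.reProdIm isCompact_Icc)).subset ?_
  rintro b ⟨h1, h2, h3, h4⟩
  have := Zer.abs_re_le b h1
  rw [abs_le] at this
  exact ⟨⟨⟨by linarith, by linarith⟩, ⟨h3.le, h4.le⟩⟩, h1⟩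

lemma cnt_shift {h r θ T1 T2 : ℝ} (h0 : 0 ≤ h) (hr : 0 < r) :
    cnt (fun z => (r * cexp (θ * I)) * XX (z + h)) 0 1 T1 T2 = ∑ᶠ b ∈ XZ h T1 T2, mult XX b := by
  have hk : (r * cexp (θ * I) : ℂ) ≠ 0 :=
    mul_ne_zero (by exact_mod_cast hr.ne') (Complex.exp_ne_zero _)
  have hd : Differentiable ℂ fun z : ℂ => XX (z + h) := fun z =>
    (B1h.XX_diff.differentiableAt).comp z (by fun_prop)
  unfold cnt
  have hm : ∀ s : ℂ, mult (fun z => (r * cexp (θ * I)) * XX (z + h)) s = mult XX (s + h) := by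
    intro s
    rw [mult_const hd hk, mult_comp_add]
  simp only [hm]
  have hset : XZ h T1 T2 = (fun s : ℂ => s + h) '' {s | s ∈ Set.Ioo (0 : ℝ) 1 ×ℂ Set.Ioo T1 T2 ∧
      (r * cexp (θ * I)) * XX (s + h) = 0} := by
    ext b
    constructor
    · rintro ⟨h1, h2, h3, h4⟩
      have := Zer.abs_re_le b h1
      rw [abs_le] at this
      refine ⟨b - h, ⟨⟨⟨?_, ?_⟩, ⟨?_, ?_⟩⟩, ?_⟩, ?_⟩
      · simp; exact h2
      · simp; linarith
      · simpa using h3
      · simpa using h4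
      · rw [sub_add_cancel, h1, mul_zero]
      · simp
    · rintro ⟨s, ⟨⟨⟨a1, a2⟩, ⟨a3, a4⟩⟩, a5⟩, rfl⟩
      refine ⟨(mul_eq_zero.1 a5).resolve_left hk, ?_, ?_, ?_⟩
      · simp only [add_re, ofReal_re]
        linarith
      · simpa using a3
      · simpa using a4
  rw [hset, finsum_mem_image (fun a _ b _ hab => add_right_cancel hab)]

/-- the domination on the boundary of `[0,1] × [T1,T2]`. -/
lemma bd_le {h T1 T2 : ℝ} (hh : 0 < h) (hT : T1 < T2) (h1 : GH h T1) (h2 : GH h T2)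
    (hno : ∀ b : ℂ, XX b = 0 → T1 ≤ b.im → b.im ≤ T2 → b.re ≠ h) (z : ℂ) (hz : z ∈ Bd 0 1 T1 T2) :
    ‖XX (z - h)‖ ≤ ‖XX (z + h)‖ ∧ XX (z + h) ≠ 0 := by
  have hFr : ∀ T : ℝ, GH h T → ∀ z : ℂ, z.im = T → Fr h z := by
    intro T hT z hz b hb
    have := hT b hb
    rw [hz]
    nlinarith [sq_nonneg z.re]
  rcases hz with ⟨h3, h4 | h4⟩ | ⟨h3, h4 | h4⟩
  · exact ⟨le_of_Fr hh.le h3.1 (hFr _ h1 z h4), ne_of_Fr hh.le h3.1 (hFr _ h1 z h4)⟩
  · exact ⟨le_of_Fr hh.le h3.1 (hFr _ h2 z h4), ne_of_Fr hh.le h3.1 (hFr _ h2 z h4)⟩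
  · have e1 : (z - h : ℂ) = -h + z.im * I := by
      apply Complex.ext <;> simp [h4]
    have e2 : (z + h : ℂ) = h + z.im * I := by
      apply Complex.ext <;> simp [h4]
    constructor
    · rw [e1, e2, XX_refl_norm]
    · intro h0
      refine hno _ h0 ?_ ?_ ?_
      · simpa using h3.1
      · simpa using h3.2
      · simp [h4]
  · have hf : Fr h z := Fr_far (by rw [h4]; norm_num)
    exact ⟨le_of_Fr hh.le (by rw [h4]; norm_num) hf, ne_of_Fr hh.le (by rw [h4]; norm_num) hf⟩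

/-- the count for the perturbed function -/
lemma cnt_G {h r θ T1 T2 : ℝ} (hh : 0 < h) (hr : 1 < r) (hT : T1 < T2) (h1 : GH h T1) (h2 : GH h T2)
    (hno : ∀ b : ℂ, XX b = 0 → T1 ≤ b.im → b.im ≤ T2 → b.re ≠ h) :
    cnt (fun z => (r * cexp (θ * I)) * XX (z + h) + cexp (-(θ * I)) * XX (z - h)) 0 1 T1 T2 =
      ∑ᶠ b ∈ XZ h T1 T2, mult XX b := by
  rw [← cnt_shift (r := r) (θ := θ) hh.le (by linarith)]
  have hd : Differentiable ℂ fun z : ℂ => (r * cexp (θ * I)) * XX (z + h) := fun z =>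
    ((B1h.XX_diff.differentiableAt).comp z (by fun_prop)).const_mul _
  have hd2 : Differentiable ℂ fun z : ℂ => cexp (-(θ * I)) * XX (z - h) := fun z =>
    ((B1h.XX_diff.differentiableAt).comp z (by fun_prop)).const_mul _
  refine rouche one_pos hT (fun z _ => hd.analyticAt z) (fun z _ => (hd.add hd2).analyticAt z) ?_
  intro z hz
  obtain ⟨g1, g2⟩ := bd_le hh hT h1 h2 hno z hz
  have g3 : 0 < ‖XX (z + h)‖ := norm_pos_iff.mpr g2
  rw [add_sub_cancel_left, norm_mul, nexp', one_mul, norm_mul, norm_mul, nexp, mul_one, Complex.norm_real,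
    Real.norm_eq_abs, abs_of_pos (by linarith)]
  nlinarith

end

end Pool.Agent.V11273.DX
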